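import Pool.Agent.helper56.CY.Spec
import Pool.Agent.helper56.CT.Fin1

set_option autoImplicit false

namespace Pool.Agent.CY
open Finset CT

lemma FNA_nbr {V : Type} (G : SimpleGraph V) (hG : FourRegular G) (x : V) : ∃ w, G.Adj x w := by
  have h := hG x
  have hne : Nonempty {w // G.Adj x w} := by
    by_contra hcon
    rw [not_nonempty_iff] at hcon
    rw [Nat.card_of_isEmpty] at h
    omega
  obtain ⟨w, hw⟩ := hne
  exact ⟨w, hw⟩

lemma FNA_key (hMAI : MAI_stmt) (hLKC : LKC_stmt) {V : Type} [Fintype V] [DecidableEq V]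
    (G : SimpleGraph V) (v : V) (hG : FourRegular G) (hn : 6 ≤ Fintype.card V)
    (hc2 : ¬ C2Is (decompletion G v) (ZMod 2) 0) (b : ℕ) (C : Fin b → SimpleGraph V)
    (hC : EvenFamily G b C) (hb : 1 ≤ b) (hcov : ¬ Covers G C) (h1 : Nat.card (span C) ≤ 2 * b)
    (h2 : span C = Set.univ → Fintype.card V + 1 ≤ 2 * b) : False := by
  classical
  have hG' : G.IsRegularOfDegree 4 := by
    intro u
    rw [← hG u, Nat.card_eq_fintype_card, ← SimpleGraph.card_neighborSet_eq_degree]
    rfl
  obtain ⟨e, he, e1, e2, e3⟩ := E3 V G hG'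
  obtain ⟨c, hc1, hc0, hnb, hW⟩ := hLKC V G e b C he.1 e1 e2 e3 hC hcov
  have hLs : ((univ : Finset V).toList).toFinset = univ := Finset.toList_toFinset _
  have hcard : (Wt univ c).card = Nat.card (span C) := by
    have h3 : span C = ((Wt univ c : Finset V) : Set V) := by
      ext x
      rw [Finset.mem_coe]
      exact (hW x).symm
    rw [h3, Nat.card_coe_set_eq, Set.ncard_coe_finset]
  have hHyp : Hyp (univ : Finset V) c := by
    refine ⟨hc0, by rw [hnb]; exact hb, ?_⟩
    rw [hnb]
    by_cases hWu : Wt univ c = univ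
    · rw [if_pos hWu, hWu, card_univ]
      apply h2
      ext x
      simp only [Set.mem_univ, iff_true]
      rw [← hW x, hWu]
      exact mem_univ x
    · rw [if_neg hWu, hcard]
      exact h1
  have hZ := hMAI V (univ : Finset V).toList e c (Finset.nodup_toList _)
    (by rw [Finset.length_toList, card_univ]; omega) (by rw [hLs]; exact he) (by rw [hLs]; exact hc1)
    (by rw [hLs]; exact hHyp)
  exact hc2 (c2_of_Z fE1 fE2 fE4 fB5 fJC3 fJZ2 G v hG' hn e he e1 e2 e3 _ (Finset.nodup_toList _) hLs hZ).1

theorem FNA (hMAI : MAI_stmt) (hLKC : LKC_stmt) : FNA_stmt := by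
  classical
  intro V _ _ G v hG hn hc2
  have hsp : ∀ (b : ℕ) (C : Fin b → SimpleGraph V), Nat.card (span C) ≤ Fintype.card V := by
    intro b C
    rw [← Nat.card_eq_fintype_card]
    exact Nat.card_le_card_of_injective _ Subtype.val_injective
  have hB : ∀ (b : ℕ) (C : Fin b → SimpleGraph V), EvenFamily G b C → 1 ≤ b →
      ¬ Covers G C → 2 * b ≤ Fintype.card V := by
    intro b C hC hb hcov
    by_contra hcon
    have := hsp b C
    exact FNA_key hMAI hLKC G v hG hn hc2 b C hC hb hcov (by omega) (fun _ => by omega)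
  intro b C hC hb
  refine ⟨?_, hB b C hC hb, ?_⟩
  · intro hspan
    by_contra hcon
    refine FNA_key hMAI hLKC G v hG hn hc2 b C hC hb ?_ (by omega) (fun h => absurd h hspan)
    intro hcov
    obtain ⟨x, hx⟩ := (Set.ne_univ_iff_exists_notMem _).1 hspan
    obtain ⟨w, hw⟩ := FNA_nbr G hG x
    obtain ⟨i, hi⟩ := hcov x w hw
    exact hx ⟨i, w, hi⟩
  · by_cases hcov : Covers G C
    · obtain ⟨b', rfl⟩ : ∃ b', b = b' + 1 := ⟨b - 1, by omega⟩
      rcases Nat.eq_zero_or_pos b' with h0 | hpos
      · omega
      · have hC' : EvenFamily G b' (fun i => C i.castSucc) :=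
          ⟨fun i => hC.le _, fun i => hC.ne _, fun i w => hC.even _ w, fun i j hij =>
            hC.disj _ _ fun h => hij (Fin.castSucc_injective _ h)⟩
        have hcov' : ¬ Covers G (fun i : Fin b' => C i.castSucc) := by
          intro hcv
          have hne := hC.ne (Fin.last b')
          apply hne
          ext u w
          simp only [SimpleGraph.bot_adj, iff_false]
          intro huw
          obtain ⟨i, hi⟩ := hcv u w (hC.le _ huw)
          exact hC.disj i.castSucc (Fin.last b') (Fin.castSucc_lt_last i).ne u w hi huw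
        have := hB b' _ hC' hpos hcov'
        omega
    · have := hB b C hC hb hcov
      omega

end Pool.Agent.CY
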