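import Pool.Agent.helper56.CY.Spec

set_option autoImplicit false

namespace Pool.Agent.CY
open Finset CT

theorem RDH (hRDN : RDN_stmt) (hRDW : RDW_stmt) : RDH_stmt := by
  intro V _ L e u v w i j k c m hT hm hH
  have hN := hRDN V L e u v w i j k c m hT
  obtain ⟨w1, w2, w3⟩ := hRDW V L e u v w i j k c m hT hm
  obtain ⟨h0, h1, h2⟩ := hH
  have hmem : m ∈ (dts (u :: v :: w :: L).toFinset).image c := by
    rw [Finset.mem_image]
    have hd : (u, i 0) ∈ dts (u :: v :: w :: L).toFinset := by
      simp [dts]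
    exact ⟨(u, i 0), hd, (hT.col _ hd).2 (Or.inl rfl)⟩
  have hnb : nb (v :: L).toFinset (cred c v w j k) + 1 = nb (u :: v :: w :: L).toFinset c := by
    rw [nb, nb, hN, Finset.erase_right_comm]
    exact Finset.card_erase_add_one (Finset.mem_erase.2 ⟨hm, hmem⟩)
  refine ⟨?_, ?_, ?_⟩
  · rw [hN, Finset.mem_erase]
    exact ⟨hm.symm, h0⟩
  · by_cases hW : Wt (u :: v :: w :: L).toFinset c = (u :: v :: w :: L).toFinset
    · rw [if_pos hW] at h2
      omega
    · rw [if_neg hW] at h2
      omega
  · by_cases hW : Wt (u :: v :: w :: L).toFinset c = (u :: v :: w :: L).toFinset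
    · rw [if_pos hW] at h2
      by_cases hW' : Wt (v :: L).toFinset (cred c v w j k) = (v :: L).toFinset
      · rw [if_pos hW']
        omega
      · rw [if_neg hW']
        omega
    · rw [if_neg hW] at h2
      rw [if_neg (w2 hW)]
      omega

end Pool.Agent.CY
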